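import Pool.Agent.Y560.TH.HYd

/-!
Project TH: the coding of a 0-hyperbolic metric space with an isometric action by a semilinear
order (HYB).
-/

set_option autoImplicit false

namespace Pool.Agent.Y564.TH

open Set
open Pool.Agent.H566P (XG Isom)
open Pool.Agent.Y560.TF (TO)
open Pool.Agent.Y560.TH

/-! ### Preimages -/

section pre

variable {θ : Equiv.Perm ℕ}

theorem pre_inj {A B : Set ℕ} : (θ ⁻¹' A = θ ⁻¹' B) ↔ A = B :=
  (Set.preimage_injective.2 θ.surjective).eq_iff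

theorem pre_ssub {A B : Set ℕ} : (θ ⁻¹' A ⊂ θ ⁻¹' B) ↔ A ⊂ B := by
  rw [ssubset_iff_subset_ne, ssubset_iff_subset_ne, Ne, Ne, pre_inj,
    Set.preimage_subset_preimage_iff (by rw [θ.surjective.range_eq]; exact Set.subset_univ _)]

theorem ex1_equi {P : ℕ → Prop} : (∃ u, P u) ↔ ∃ u, P (θ u) := by
  constructor
  · rintro ⟨u, h⟩
    refine ⟨θ.symm u, ?_⟩
    rwa [θ.apply_symm_apply]
  · rintro ⟨u, h⟩
    exact ⟨_, h⟩

theorem nth_one (p : ℕ → Prop) (k : ℕ) (h : ∀ b, p b ↔ b = k) : Nat.nth p 0 = k := by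
  have h1 : p = fun b => b = k := funext fun b => propext (h b)
  rw [h1, Nat.nth_zero]
  exact csInf_singleton k

theorem nth_mem (p : ℕ → Prop) (h : ∃ b, p b) : p (Nat.nth p 0) := by
  rw [Nat.nth_zero]
  exact Nat.sInf_mem (s := Set.ofPred p) h

end pre

variable {Γ : Type}

/-! ### The sets -/

section eqv

variable {x : XM Γ} {p a b c : ℕ}

theorem eqh_iff : eqh x p a b ↔
    ∀ γ δ, x.1 a (x.2.1 γ p) - x.1 b (x.2.1 γ p) = x.1 a (x.2.1 δ p) - x.1 b (x.2.1 δ p) :=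
  Iff.rfl

theorem eqh_refl (x : XM Γ) (p a : ℕ) : eqh x p a a := fun γ δ => by rw [sub_self, sub_self]

theorem eqh_symm (h : eqh x p a b) : eqh x p b a := fun γ δ => by
  have := h γ δ
  linarith

theorem eqh_trans (h : eqh x p a b) (h' : eqh x p b c) : eqh x p a c := fun γ δ => by
  have h1 := h γ δ
  have h2 := h' γ δ
  linarith

theorem kh_pos (h : eqh x p a b) : kh x p a b = gp x p a b := if_pos h

theorem kh_neg (h : ¬ eqh x p a b) : kh x p a b = gp x p a a := if_neg h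

theorem kh_self (x : XM Γ) (p a : ℕ) : kh x p a a = gp x p a a := kh_pos (eqh_refl x p a)

theorem mem_UH {s : ℕ × ℕ} : c ∈ UH x p s ↔ eqh x p s.1 c ∧ kh x p s.1 s.2 ≤ gp x p s.1 c :=
  Iff.rfl

theorem UH_neg (h : ¬ eqh x p a b) : UH x p (a, b) = UH x p (a, a) := by
  ext c
  rw [mem_UH, mem_UH]
  show eqh x p a c ∧ kh x p a b ≤ gp x p a c ↔ eqh x p a c ∧ kh x p a a ≤ gp x p a c
  rw [kh_neg h, kh_self]

end eqv

section sets

variable [Group Γ] {x : XM Γ} (hx : HY x)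

include hx

theorem tri (a b c : ℕ) : x.1 a b ≤ x.1 a c + x.1 b c := by
  have h1 := hx.four a b c c
  have h2 : x.1 c c = 0 := (hx.zero c c).2 rfl
  rw [max_self, h2] at h1
  linarith

theorem nn (a b : ℕ) : 0 ≤ x.1 a b := by
  have h1 := tri hx a a b
  have h2 : x.1 a a = 0 := (hx.zero a a).2 rfl
  linarith

theorem gp_comm (p a b : ℕ) : gp x p a b = gp x p b a := by
  unfold gp
  rw [hx.symm a b]
  ring

theorem gp_le (p a b : ℕ) : gp x p a b ≤ gp x p a a := by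
  unfold gp
  have h1 := tri hx b p a
  have h2 : x.1 a a = 0 := (hx.zero a a).2 rfl
  have h3 := hx.symm b a
  have h4 := hx.symm p a
  linarith

theorem gp_ultra (p a b c : ℕ) : min (gp x p a b) (gp x p b c) ≤ gp x p a c := by
  have h1 := hx.four b p a c
  have e1 := hx.symm b a
  have e2 := hx.symm p c
  have e3 := hx.symm p a
  unfold gp
  rcases max_cases (x.1 b a + x.1 p c) (x.1 b c + x.1 p a) with ⟨h2, h3⟩ | ⟨h2, h3⟩
  · refine (min_le_left _ _).trans ?_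
    rw [h2] at h1
    linarith
  · refine (min_le_right _ _).trans ?_
    rw [h2] at h1
    linarith

theorem left_mem (p : ℕ) (s : ℕ × ℕ) : s.1 ∈ UH x p s := by
  refine ⟨eqh_refl _ _ _, ?_⟩
  by_cases h : eqh x p s.1 s.2
  · rw [kh_pos h]
    exact gp_le hx _ _ _
  · rw [kh_neg h]

theorem UH_of_mem {p w : ℕ} {s : ℕ × ℕ} (h : w ∈ UH x p s) (c : ℕ) :
    c ∈ UH x p s ↔ eqh x p w c ∧ kh x p s.1 s.2 ≤ gp x p w c := by
  rw [mem_UH] at h ⊢
  constructor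
  · rintro ⟨h1, h2⟩
    refine ⟨eqh_trans (eqh_symm h.1) h1, ?_⟩
    refine le_trans (le_min ?_ h2) (gp_ultra hx p w s.1 c)
    rw [gp_comm hx]
    exact h.2
  · rintro ⟨h1, h2⟩
    exact ⟨eqh_trans h.1 h1, le_trans (le_min h.2 h2) (gp_ultra hx p s.1 w c)⟩

theorem lam {p w : ℕ} {s t : ℕ × ℕ} (hs : w ∈ UH x p s) (ht : w ∈ UH x p t) :
    UH x p s ⊆ UH x p t ∨ UH x p t ⊆ UH x p s := by
  rcases le_total (kh x p s.1 s.2) (kh x p t.1 t.2) with h | h
  · right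
    intro c hc
    rw [UH_of_mem hx hs]
    rw [UH_of_mem hx ht] at hc
    exact ⟨hc.1, h.trans hc.2⟩
  · left
    intro c hc
    rw [UH_of_mem hx ht]
    rw [UH_of_mem hx hs] at hc
    exact ⟨hc.1, h.trans hc.2⟩

omit hx in
omit [Group Γ] in
theorem right_mem {p a b : ℕ} (h : eqh x p a b) : b ∈ UH x p (a, b) :=
  ⟨h, (kh_pos h).le⟩

theorem leaf_sub {p a : ℕ} {s : ℕ × ℕ} : UH x p (a, a) ⊆ UH x p s ↔ a ∈ UH x p s := by
  constructor
  · exact fun h => h (left_mem hx p (a, a))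
  · intro h c hc
    rw [UH_of_mem hx h]
    rw [UH_of_mem hx h] at h
    have h1 : eqh x p a c ∧ kh x p a a ≤ gp x p a c := hc
    rw [kh_self] at h1
    exact ⟨h1.1, h.2.trans h1.2⟩

theorem pair_sub {p a b : ℕ} {s : ℕ × ℕ} (hab : eqh x p a b) :
    UH x p (a, b) ⊆ UH x p s ↔ a ∈ UH x p s ∧ b ∈ UH x p s := by
  constructor
  · exact fun h => ⟨h (left_mem hx p (a, b)), h (right_mem hab)⟩
  · rintro ⟨h, h'⟩ c hc
    rw [UH_of_mem hx h] at h' ⊢
    have h1 : eqh x p a c ∧ kh x p a b ≤ gp x p a c := hc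
    rw [kh_pos hab] at h1
    exact ⟨h1.1, h'.2.trans h1.2⟩

theorem leaf_inj {p a b : ℕ} (h : UH x p (a, a) = UH x p (b, b)) : a = b := by
  have h1 : b ∈ UH x p (a, a) := by
    rw [h]
    exact left_mem hx p (b, b)
  have h2 : a ∈ UH x p (b, b) := by
    rw [← h]
    exact left_mem hx p (a, a)
  have h3 : kh x p a a ≤ gp x p a b := h1.2
  have h4 : kh x p b b ≤ gp x p b a := h2.2
  rw [kh_self] at h3 h4
  unfold gp at h3 h4
  have e1 : x.1 a a = 0 := (hx.zero a a).2 rfl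
  have e2 : x.1 b b = 0 := (hx.zero b b).2 rfl
  have e3 := hx.symm b a
  have e4 := nn hx a b
  exact (hx.zero a b).1 (by linarith)

theorem gp_le_of {p a b a' b' : ℕ} (h : eqh x p a b) (h' : eqh x p a' b')
    (he : UH x p (a, b) = UH x p (a', b')) : gp x p a b ≤ gp x p a' b' := by
  have h1 : a' ∈ UH x p (a, b) := by
    rw [he]
    exact left_mem hx p (a', b')
  have h2 : b' ∈ UH x p (a, b) := by
    rw [he]
    exact right_mem h'
  rw [UH_of_mem hx h1] at h2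
  have h3 : kh x p a b ≤ gp x p a' b' := h2.2
  rwa [kh_pos h] at h3

theorem gp_eq {p a b a' b' : ℕ} (h : eqh x p a b) (h' : eqh x p a' b')
    (he : UH x p (a, b) = UH x p (a', b')) : gp x p a b = gp x p a' b' :=
  le_antisymm (gp_le_of hx h h' he) (gp_le_of hx h' h he.symm)

/-! ### The action -/

theorem d_act (γ : Γ) (a q : ℕ) : x.1 (x.2.1 γ a) q = x.1 a (x.2.1 γ⁻¹ q) := by
  rw [← hx.isom γ a (x.2.1 γ⁻¹ q), ← hx.mul, mul_inv_cancel, hx.one]

theorem eqh_act (γ : Γ) (p a b : ℕ) (h : eqh x p a b) :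
    eqh x p (x.2.1 γ a) (x.2.1 γ b) := by
  rw [eqh_iff] at h ⊢
  intro δ ε
  rw [d_act hx, d_act hx, d_act hx, d_act hx, ← hx.mul, ← hx.mul]
  exact h _ _

theorem act_inv (γ : Γ) (a : ℕ) : x.2.1 γ⁻¹ (x.2.1 γ a) = a := by
  rw [← hx.mul, inv_mul_cancel, hx.one]

theorem eqh_act_iff (γ : Γ) (p a b : ℕ) :
    eqh x p (x.2.1 γ a) (x.2.1 γ b) ↔ eqh x p a b := by
  constructor
  · intro h
    have h1 := eqh_act hx γ⁻¹ p _ _ h
    rwa [act_inv hx, act_inv hx] at h1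
  · exact eqh_act hx γ p a b

theorem gp_act (γ : Γ) (p a b c : ℕ) (h : eqh x p b c) :
    gp x p (x.2.1 γ a) (x.2.1 γ b) ≤ gp x p (x.2.1 γ a) (x.2.1 γ c) ↔
      gp x p a b ≤ gp x p a c := by
  have h1 := (eqh_iff.1 h) γ⁻¹ 1
  rw [hx.one] at h1
  unfold gp
  rw [d_act hx γ a p, d_act hx γ b p, d_act hx γ c p, hx.isom, hx.isom]
  constructor
  · intro h2
    linarith
  · intro h2
    linarith

theorem UH_act (γ : Γ) (p c : ℕ) (s : ℕ × ℕ) :
    c ∈ UH x p s ↔ x.2.1 γ c ∈ UH x p (x.2.1 γ s.1, x.2.1 γ s.2) := by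
  rw [mem_UH, mem_UH]
  show _ ↔ eqh x p (x.2.1 γ s.1) (x.2.1 γ c) ∧
    kh x p (x.2.1 γ s.1) (x.2.1 γ s.2) ≤ gp x p (x.2.1 γ s.1) (x.2.1 γ c)
  rw [eqh_act_iff hx]
  refine and_congr_right fun h => ?_
  by_cases h1 : eqh x p s.1 s.2
  · rw [kh_pos h1, kh_pos (eqh_act hx γ p _ _ h1)]
    exact (gp_act hx γ p _ _ _ (eqh_trans (eqh_symm h1) h)).symm
  · rw [kh_neg h1, kh_neg (fun h2 => h1 ((eqh_act_iff hx γ p _ _).1 h2))]
    exact (gp_act hx γ p _ _ _ h).symm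

/-- the permutation given by `γ` -/
def pm (γ : Γ) : Equiv.Perm ℕ where
  toFun := x.2.1 γ
  invFun := x.2.1 γ⁻¹
  left_inv m := by
    show x.2.1 γ⁻¹ (x.2.1 γ m) = m
    rw [← hx.mul, inv_mul_cancel, hx.one]
  right_inv m := by
    show x.2.1 γ (x.2.1 γ⁻¹ m) = m
    rw [← hx.mul, mul_inv_cancel, hx.one]

theorem UH_pre (γ : Γ) (p : ℕ) (s : ℕ × ℕ) :
    UH x p s = (pm hx γ) ⁻¹' UH x p (x.2.1 γ s.1, x.2.1 γ s.2) := by
  ext c
  exact UH_act hx γ p c s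

theorem UH_act_eq (γ : Γ) (p : ℕ) (s t : ℕ × ℕ) : UH x p s = UH x p t ↔
    UH x p (x.2.1 γ s.1, x.2.1 γ s.2) = UH x p (x.2.1 γ t.1, x.2.1 γ t.2) := by
  rw [UH_pre hx γ p s, UH_pre hx γ p t, pre_inj]

theorem UH_act_lt (γ : Γ) (p : ℕ) (s t : ℕ × ℕ) : UH x p s ⊂ UH x p t ↔
    UH x p (x.2.1 γ s.1, x.2.1 γ s.2) ⊂ UH x p (x.2.1 γ t.1, x.2.1 γ t.2) := by
  rw [UH_pre hx γ p s, UH_pre hx γ p t, pre_ssub]

end sets

/-! ### The predicates -/

section preds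

variable {x x' : XM Γ} {p : ℕ} {e : ℕ → LH Γ} {r : ℕ → ℝ}

/-- the predicates with positive number -/
def Pr1 (x : XM Γ) (p : ℕ) (e : ℕ → LH Γ) (r : ℕ → ℝ) (s : ℕ × ℕ) (n : ℕ) : Prop :=
  (n % 3 = 0 ∧ ∃ w, UH x p s = UH x p (w, w) ∧ lh x p w = e (n / 3)) ∨
  (n % 3 = 1 ∧ ∃ a b, eqh x p a b ∧ UH x p s = UH x p (a, b) ∧ gp x p a b = r (n / 3)) ∨
  (n % 3 = 2 ∧ ∃ w, UH x p s = UH x p (w, w) ∧ x.2.2 (n / 3) w = true)

theorem PrH_succ (s : ℕ × ℕ) (n : ℕ) : PrH x p e r s (n + 1) ↔ Pr1 x p e r s n := Iff.rfl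

/-- the predicates only depend on the set -/
theorem PrH_congr {s t : ℕ × ℕ} (h : UH x p s = UH x p t) (n : ℕ) :
    PrH x p e r s n ↔ PrH x p e r t n := by
  obtain _ | n := n
  · show (∃ w, UH x p s = UH x p (w, w)) ↔ (∃ w, UH x p t = UH x p (w, w))
    rw [h]
  · rw [PrH_succ, PrH_succ]
    unfold Pr1
    rw [h]

variable {θ : Equiv.Perm ℕ} (hθ : IsoM θ x' x)

include hθ

theorem lh_equi (u : ℕ) : lh x' p u = lh x (θ p) (θ u) := by
  unfold lh
  simp only [hθ.2.1, hθ.1]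

theorem gp_equi (a b : ℕ) : gp x' p a b = gp x (θ p) (θ a) (θ b) := by
  unfold gp
  simp only [hθ.1]

theorem eqh_equi (a b : ℕ) : eqh x' p a b ↔ eqh x (θ p) (θ a) (θ b) := by
  unfold eqh
  rw [lh_equi hθ, lh_equi hθ]

theorem kh_equi (a b : ℕ) : kh x' p a b = kh x (θ p) (θ a) (θ b) := by
  by_cases h : eqh x' p a b
  · rw [kh_pos h, kh_pos ((eqh_equi hθ _ _).1 h), gp_equi hθ]
  · rw [kh_neg h, kh_neg (fun h1 => h ((eqh_equi hθ _ _).2 h1)), gp_equi hθ]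

theorem UH_equi (s : ℕ × ℕ) : UH x' p s = θ ⁻¹' UH x (θ p) (θ s.1, θ s.2) := by
  ext c
  show eqh x' p s.1 c ∧ kh x' p s.1 s.2 ≤ gp x' p s.1 c ↔
    eqh x (θ p) (θ s.1) (θ c) ∧ kh x (θ p) (θ s.1) (θ s.2) ≤ gp x (θ p) (θ s.1) (θ c)
  rw [eqh_equi hθ, kh_equi hθ, gp_equi hθ]

theorem UH_eq_equi (s t : ℕ × ℕ) : UH x' p s = UH x' p t ↔
    UH x (θ p) (θ s.1, θ s.2) = UH x (θ p) (θ t.1, θ t.2) := by
  rw [UH_equi hθ, UH_equi hθ, pre_inj]

theorem UH_lt_equi (s t : ℕ × ℕ) : UH x' p s ⊂ UH x' p t ↔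
    UH x (θ p) (θ s.1, θ s.2) ⊂ UH x (θ p) (θ t.1, θ t.2) := by
  rw [UH_equi hθ, UH_equi hθ, pre_ssub]

theorem PrH_equi (s : ℕ × ℕ) (n : ℕ) :
    PrH x' p e r s n ↔ PrH x (θ p) e r (θ s.1, θ s.2) n := by
  have hU : ∀ w, UH x' p s = UH x' p (w, w) ↔
      UH x (θ p) (θ s.1, θ s.2) = UH x (θ p) (θ w, θ w) := fun w => UH_eq_equi hθ s (w, w)
  have hV : ∀ a b, UH x' p s = UH x' p (a, b) ↔
      UH x (θ p) (θ s.1, θ s.2) = UH x (θ p) (θ a, θ b) := fun a b => UH_eq_equi hθ s (a, b)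
  obtain _ | n := n
  · show (∃ w, UH x' p s = UH x' p (w, w)) ↔
      (∃ w, UH x (θ p) (θ s.1, θ s.2) = UH x (θ p) (w, w))
    rw [ex1_equi (θ := θ) (P := fun w => UH x (θ p) (θ s.1, θ s.2) = UH x (θ p) (w, w))]
    exact exists_congr hU
  · rw [PrH_succ, PrH_succ]
    unfold Pr1
    rw [ex1_equi (θ := θ) (P := fun w => UH x (θ p) (θ s.1, θ s.2) = UH x (θ p) (w, w) ∧
        lh x (θ p) w = e (n / 3)),
      ex1_equi (θ := θ) (P := fun w => UH x (θ p) (θ s.1, θ s.2) = UH x (θ p) (w, w) ∧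
        x.2.2 (n / 3) w = true),
      ex1_equi (θ := θ) (P := fun a => ∃ b, eqh x (θ p) a b ∧
        UH x (θ p) (θ s.1, θ s.2) = UH x (θ p) (a, b) ∧ gp x (θ p) a b = r (n / 3))]
    refine or_congr (and_congr Iff.rfl (exists_congr fun w => and_congr (hU w) ?_))
      (or_congr (and_congr Iff.rfl (exists_congr fun a => ?_))
        (and_congr Iff.rfl (exists_congr fun w => and_congr (hU w) ?_)))
    · rw [lh_equi hθ]
    · rw [ex1_equi (θ := θ) (P := fun b => eqh x (θ p) (θ a) b ∧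
        UH x (θ p) (θ s.1, θ s.2) = UH x (θ p) (θ a, b) ∧ gp x (θ p) (θ a) b = r (n / 3))]
      refine exists_congr fun b => and_congr (eqh_equi hθ a b) (and_congr (hV a b) ?_)
      rw [gp_equi hθ]
    · rw [hθ.2.2]

end preds

/-! ### Uniqueness, isomorphic codes, isomorphic structures -/

section iso

variable {e : ℕ → LH Γ} {r : ℕ → ℝ}

theorem cod_uni {x : XM Γ} {p : ℕ} {f f' : ℕ × ℕ → ℕ} {y y' : XG Γ} (h : CodH e r x p f y)
    (h' : CodH e r x p f' y') : ∃ σ : Equiv.Perm ℕ, Isom σ y y' := by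
  choose g hg using h.sur
  choose g' hg' using h'.sur
  have k1 : ∀ s, f' (g (f s)) = f' s := fun s => (h'.eq _ _).2 ((h.eq _ _).1 (hg (f s)))
  have k2 : ∀ s, f (g' (f' s)) = f s := fun s => (h.eq _ _).2 ((h'.eq _ _).1 (hg' (f' s)))
  set σ : Equiv.Perm ℕ := ⟨fun m => f' (g m), fun m => f (g' m), fun m => by
    show f (g' (f' (g m))) = m
    rw [k2, hg], fun m => by
    show f' (g (f (g' m))) = m
    rw [k1, hg']⟩ with hσ
  have hs : ∀ s, σ (f s) = f' s := k1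
  refine ⟨σ, fun m n => ?_, fun γ m => ?_, fun i m => ?_⟩
  · obtain ⟨s, rfl⟩ := h.sur m
    obtain ⟨t, rfl⟩ := h.sur n
    rw [hs, hs, Bool.eq_iff_iff, h'.lt, h.lt]
  · obtain ⟨⟨u, v⟩, rfl⟩ := h.sur m
    rw [hs, h'.act, h.act, hs]
  · obtain ⟨s, rfl⟩ := h.sur m
    rw [hs, Bool.eq_iff_iff, h'.pr, h.pr]

theorem cod_trans {x : XM Γ} {p : ℕ} {f : ℕ × ℕ → ℕ} {y y' : XG Γ} {σ : Equiv.Perm ℕ}
    (h : CodH e r x p f y) (hσ : Isom σ y y') : CodH e r x p (fun s => σ (f s)) y' := by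
  refine ⟨fun m => ?_, fun s t => ?_, fun s t => ?_, fun γ u v => ?_, fun n s => ?_⟩
  · obtain ⟨s, hs⟩ := h.sur (σ.symm m)
    exact ⟨s, by rw [hs, σ.apply_symm_apply]⟩
  · rw [σ.injective.eq_iff, h.eq]
  · rw [hσ.1, h.lt]
  · rw [hσ.2.1, h.act]
  · rw [hσ.2.2, h.pr]

theorem cod_pull {x x' : XM Γ} {p : ℕ} {f : ℕ × ℕ → ℕ} {y : XG Γ} {θ : Equiv.Perm ℕ}
    (h : CodH e r x p f y) (hθ : IsoM θ x' x) :
    CodH e r x' (θ.symm p) (fun s => f (θ s.1, θ s.2)) y := by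
  obtain ⟨q, rfl⟩ := θ.surjective p
  rw [θ.symm_apply_apply]
  refine ⟨fun m => ?_, fun s t => ?_, fun s t => ?_, fun γ u v => ?_, fun n s => ?_⟩
  · obtain ⟨⟨u, v⟩, hs⟩ := h.sur m
    refine ⟨(θ.symm u, θ.symm v), ?_⟩
    simp only [θ.apply_symm_apply]
    exact hs
  · rw [h.eq]
    exact (UH_eq_equi hθ s t).symm
  · rw [h.lt]
    exact (UH_lt_equi hθ t s).symm
  · simp only
    rw [h.act, hθ.2.1, hθ.2.1]
  · rw [h.pr]
    exact (PrH_equi hθ s n).symm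

end iso

/-! ### Existence -/

section ex

variable [Group Γ] {e : ℕ → LH Γ} {r : ℕ → ℝ} {x : XM Γ} {p : ℕ}

/-- indices of the same set -/
def sd (x : XM Γ) (p : ℕ) : Setoid (ℕ × ℕ) where
  r s t := UH x p s = UH x p t
  iseqv := ⟨fun _ => rfl, fun h => h.symm, fun h h' => h.trans h'⟩

open Classical in
theorem cod_ex (h : HY x) : ∃ f y, CodH e r x p f y := by
  have hinf : Infinite (Quotient (sd x p)) := by
    refine Infinite.of_injective (fun u : ℕ => (Quotient.mk (sd x p) (u, u))) ?_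
    intro u v huv
    exact leaf_inj h (Quotient.exact huv)
  obtain ⟨hd⟩ := nonempty_denumerable (Quotient (sd x p))
  set ε : Quotient (sd x p) ≃ ℕ := Denumerable.eqv _ with he
  set f : ℕ × ℕ → ℕ := fun s => ε (Quotient.mk (sd x p) s) with hf
  set g : ℕ → ℕ × ℕ := fun m => (ε.symm m).out with hg
  have hfe : ∀ s t, f s = f t ↔ UH x p s = UH x p t := by
    intro s t
    constructor
    · intro h1
      exact Quotient.exact (ε.injective h1)
    · intro h1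
      exact congrArg ε (Quotient.sound (s := sd x p) h1)
  have hgf : ∀ s, UH x p (g (f s)) = UH x p s := by
    intro s
    rw [← hfe]
    show ε (Quotient.mk (sd x p) ((ε.symm (ε (Quotient.mk (sd x p) s))).out)) = _
    rw [Quotient.out_eq, ε.apply_symm_apply]
  refine ⟨f, (fun m n => decide (UH x p (g n) ⊂ UH x p (g m)),
    fun γ m => f (x.2.1 γ (g m).1, x.2.1 γ (g m).2),
    fun n m => decide (PrH x p e r (g m) n)), ?_⟩
  refine ⟨fun m => ?_, hfe, fun s t => ?_, fun γ u v => ?_, fun n s => ?_⟩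
  · refine ⟨g m, ?_⟩
    show ε (Quotient.mk (sd x p) ((ε.symm m).out)) = m
    rw [Quotient.out_eq, ε.apply_symm_apply]
  · simp only [decide_eq_true_eq, hgf]
  · show f (x.2.1 γ (g (f (u, v))).1, x.2.1 γ (g (f (u, v))).2) = f (x.2.1 γ u, x.2.1 γ v)
    rw [hfe, ← UH_act_eq h γ p (g (f (u, v))) (u, v)]
    exact hgf _
  · simp only [decide_eq_true_eq]
    exact PrH_congr (hgf s) n

/-- the codes are semilinear orders with an action -/
theorem cod_semi {f : ℕ × ℕ → ℕ} {y : XG Γ} (h : HY x) (hc : CodH e r x p f y) : TO y := by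
  refine ⟨fun m => ?_, fun m n k => ?_, fun m n k => ?_, fun m => ?_, fun γ δ m => ?_,
    fun γ m n => ?_⟩
  · obtain ⟨s, rfl⟩ := hc.sur m
    rw [Bool.eq_false_iff, Ne, hc.lt]
    exact fun h1 => h1.2 subset_rfl
  · obtain ⟨s, rfl⟩ := hc.sur m
    obtain ⟨t, rfl⟩ := hc.sur n
    obtain ⟨w, rfl⟩ := hc.sur k
    rw [hc.lt, hc.lt, hc.lt]
    exact fun h1 h2 => h2.trans h1
  · obtain ⟨s, rfl⟩ := hc.sur m
    obtain ⟨t, rfl⟩ := hc.sur n
    obtain ⟨w, rfl⟩ := hc.sur k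
    rw [hc.lt, hc.lt, hc.lt, hc.lt, hc.eq]
    intro h1 h2
    rcases lam h (h1.1 (left_mem h p w)) (h2.1 (left_mem h p w)) with h3 | h3
    · by_cases h4 : UH x p s = UH x p t
      · exact Or.inl h4
      · exact Or.inr (Or.inr (h3.ssubset_of_ne h4))
    · by_cases h4 : UH x p s = UH x p t
      · exact Or.inl h4
      · exact Or.inr (Or.inl (h3.ssubset_of_ne (Ne.symm h4)))
  · obtain ⟨⟨u, v⟩, rfl⟩ := hc.sur m
    rw [hc.act, h.one, h.one]
  · obtain ⟨⟨u, v⟩, rfl⟩ := hc.sur m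
    rw [hc.act, hc.act, hc.act, h.mul, h.mul]
  · obtain ⟨⟨u, v⟩, rfl⟩ := hc.sur m
    obtain ⟨⟨u', v'⟩, rfl⟩ := hc.sur n
    rw [hc.act, hc.act, hc.lt, hc.lt]
    exact (UH_act_lt h γ p (u', v') (u, v)).1

end ex

/-! ### Decoding -/

section dec

variable [Group Γ] {e : ℕ → LH Γ} {r : ℕ → ℝ} {x : XM Γ} {p : ℕ} {f : ℕ × ℕ → ℕ} {y : XG Γ}
  (hx : HY x) (hc : CodH e r x p f y)

include hx hc

omit hx in
theorem lec_iff (s t : ℕ × ℕ) :
    (f s = f t ∨ y.1 (f s) (f t) = true) ↔ UH x p t ⊆ UH x p s := by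
  rw [hc.eq, hc.lt]
  constructor
  · rintro (h | h)
    · exact h.symm.subset
    · exact h.1
  · intro h
    by_cases h1 : UH x p s = UH x p t
    · exact Or.inl h1
    · exact Or.inr (h.ssubset_of_ne (Ne.symm h1))

theorem lec_leaf (s : ℕ × ℕ) (u : ℕ) :
    (f s = f (u, u) ∨ y.1 (f s) (f (u, u)) = true) ↔ u ∈ UH x p s := by
  rw [lec_iff hc, leaf_sub hx]

theorem finj : Function.Injective fun u : ℕ => f (u, u) := by
  intro u v huv
  exact leaf_inj hx ((hc.eq _ _).1 huv)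

/-- the leaves -/
theorem leaves : ∃ θ : Equiv.Perm ℕ, ∀ a, enh y a = f (θ a, θ a) := by
  have hleaf : ∀ u, y.2.2 0 (f (u, u)) = true := by
    intro u
    rw [hc.pr]
    exact ⟨u, rfl⟩
  have hinf : (Set.ofPred fun m => y.2.2 0 m = true).Infinite := by
    refine Set.infinite_of_injective_forall_mem (f := fun a : ℕ => f (a, a)) (finj hx hc) ?_
    intro a
    exact hleaf a
  have hen : ∀ a, ∃ b, enh y a = f (b, b) := by
    intro a
    have h1 : y.2.2 0 (enh y a) = true := Nat.nth_mem_of_infinite hinf a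
    obtain ⟨s, hs⟩ := hc.sur (enh y a)
    rw [← hs, hc.pr] at h1
    obtain ⟨w, hw⟩ := h1
    refine ⟨w, ?_⟩
    rw [← hs, hc.eq]
    exact hw
  choose θ0 hθ0 using hen
  have hbij : Function.Bijective θ0 := by
    constructor
    · intro a b hab
      apply Nat.nth_injective hinf
      show enh y a = enh y b
      rw [hθ0, hθ0, hab]
    · intro b
      have h1 : f (b, b) ∈ Set.range (Nat.nth fun m => y.2.2 0 m = true) := by
        rw [Nat.range_nth_of_infinite hinf]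
        exact hleaf b
      obtain ⟨a, ha⟩ := h1
      refine ⟨a, ?_⟩
      have h2 : enh y a = f (b, b) := ha
      rw [hθ0] at h2
      exact finj hx hc h2
  exact ⟨Equiv.ofBijective θ0 hbij, hθ0⟩

theorem ndh_iff {u v : ℕ} (huv : eqh x p u v) (K : ℕ) :
    ndh y (f (u, u)) (f (v, v)) K ↔ K = f (u, v) := by
  have key : ∀ s, ndh y (f (u, u)) (f (v, v)) (f s) ↔ u ∈ UH x p s ∧ v ∈ UH x p s ∧
      ∀ s', u ∈ UH x p s' → v ∈ UH x p s' → UH x p s ⊆ UH x p s' := by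
    intro s
    unfold ndh
    rw [lec_leaf hx hc, lec_leaf hx hc]
    refine and_congr Iff.rfl (and_congr Iff.rfl ?_)
    constructor
    · intro h s' h2 h3
      exact (lec_iff hc _ _).1 (h (f s') ((lec_leaf hx hc _ _).2 h2)
        ((lec_leaf hx hc _ _).2 h3))
    · intro h K' h2 h3
      obtain ⟨s', rfl⟩ := hc.sur K'
      exact (lec_iff hc _ _).2 (h s' ((lec_leaf hx hc _ _).1 h2)
        ((lec_leaf hx hc _ _).1 h3))
  obtain ⟨s, rfl⟩ := hc.sur K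
  rw [key, hc.eq]
  constructor
  · rintro ⟨h2, h3, h4⟩
    apply Set.Subset.antisymm
    · exact h4 (u, v) (left_mem hx p (u, v)) (right_mem huv)
    · exact (pair_sub hx huv).2 ⟨h2, h3⟩
  · intro h
    rw [h]
    exact ⟨left_mem hx p (u, v), right_mem huv, fun s' h1 h2 => (pair_sub hx huv).2 ⟨h1, h2⟩⟩

theorem pr_lab (u i : ℕ) : y.2.2 (3 * i + 1) (f (u, u)) = true ↔ lh x p u = e i := by
  rw [hc.pr, PrH_succ]
  have e1 : (3 * i) % 3 = 0 := by omega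
  have e2 : (3 * i) / 3 = i := by omega
  unfold Pr1
  rw [e1, e2]
  constructor
  · rintro (⟨-, w, hw, h⟩ | ⟨h, -⟩ | ⟨h, -⟩)
    · rw [leaf_inj hx hw]
      exact h
    · exact absurd h (by decide)
    · exact absurd h (by decide)
  · exact fun h => Or.inl ⟨rfl, u, rfl, h⟩

theorem pr_gp {u v : ℕ} (huv : eqh x p u v) (j : ℕ) :
    y.2.2 (3 * j + 2) (f (u, v)) = true ↔ gp x p u v = r j := by
  have h0 : y.2.2 (3 * j + 1 + 1) (f (u, v)) = true ↔ gp x p u v = r j := by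
    rw [hc.pr, PrH_succ]
    have e1 : (3 * j + 1) % 3 = 1 := by omega
    have e2 : (3 * j + 1) / 3 = j := by omega
    unfold Pr1
    rw [e1, e2]
    constructor
    · rintro (⟨h, -⟩ | ⟨-, a, b, hab, h1, h2⟩ | ⟨h, -⟩)
      · exact absurd h (by decide)
      · rw [gp_eq hx huv hab h1]
        exact h2
      · exact absurd h (by decide)
    · exact fun h => Or.inr (Or.inl ⟨rfl, u, v, huv, rfl, h⟩)
  exact h0

theorem pr_un (u i : ℕ) : y.2.2 (3 * i + 3) (f (u, u)) = true ↔ x.2.2 i u = true := by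
  have h0 : y.2.2 (3 * i + 2 + 1) (f (u, u)) = true ↔ x.2.2 i u = true := by
    rw [hc.pr, PrH_succ]
    have e1 : (3 * i + 2) % 3 = 2 := by omega
    have e2 : (3 * i + 2) / 3 = i := by omega
    unfold Pr1
    rw [e1, e2]
    constructor
    · rintro (⟨h, -⟩ | ⟨h, -⟩ | ⟨-, w, hw, h⟩)
      · exact absurd h (by decide)
      · exact absurd h (by decide)
      · rw [leaf_inj hx hw]
        exact h
    · exact fun h => Or.inr (Or.inr ⟨rfl, u, rfl, h⟩)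
  exact h0

variable {θ : Equiv.Perm ℕ} (hθ : ∀ a, enh y a = f (θ a, θ a)) (hcov : Covh e r x)

include hθ hcov

theorem e_ixh (a : ℕ) : e (ixh y a) = lh x p (θ a) := by
  have h1 := nth_mem (fun i => y.2.2 (3 * i + 1) (enh y a) = true) (by
    obtain ⟨i, hi⟩ := hcov.1 p (θ a)
    refine ⟨i, ?_⟩
    simp only [hθ]
    exact (pr_lab hx hc _ _).2 hi)
  have h2 : y.2.2 (3 * ixh y a + 1) (enh y a) = true := h1
  rw [hθ, pr_lab hx hc] at h2
  exact h2.symm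

theorem r_jxh {a b : ℕ} (hab : eqh x p (θ a) (θ b)) : r (jxh y a b) = gp x p (θ a) (θ b) := by
  have h0 : ∀ j, (∃ K, ndh y (enh y a) (enh y b) K ∧ y.2.2 (3 * j + 2) K = true) ↔
      gp x p (θ a) (θ b) = r j := by
    intro j
    simp only [hθ, ndh_iff hx hc hab]
    constructor
    · rintro ⟨K, rfl, h⟩
      exact (pr_gp hx hc hab j).1 h
    · exact fun h => ⟨_, rfl, (pr_gp hx hc hab j).2 h⟩
  have h1 := nth_mem (fun j => ∃ K, ndh y (enh y a) (enh y b) K ∧ y.2.2 (3 * j + 2) K = true) (by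
    obtain ⟨i, hi⟩ := hcov.2 p (θ a) (θ b)
    exact ⟨i, (h0 i).2 hi⟩)
  exact ((h0 _).1 h1).symm

omit hc hθ hcov in
theorem dd_eq {u v : ℕ} (huv : ¬ eqh x p u v) : dd (lh x p u) (lh x p v) = x.1 u v := by
  have hq : ∃ q : Γ × Γ, (lh x p u).1 q.1 + (lh x p v).1 q.2 <
      (lh x p u).1 q.2 + (lh x p v).1 q.1 := by
    by_contra hn
    push Not at hn
    refine huv fun γ δ => ?_
    have h1 := hn (γ, δ)
    have h2 := hn (δ, γ)
    simp only at h1 h2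
    linarith
  unfold dd
  rw [dif_pos hq]
  have hs := hq.choose_spec
  set q := hq.choose with hqd
  obtain ⟨γ, δ⟩ := q
  simp only at hs ⊢
  have h1 : x.1 u (x.2.1 γ p) + x.1 v (x.2.1 δ p) < x.1 u (x.2.1 δ p) + x.1 v (x.2.1 γ p) := hs
  show x.1 u (x.2.1 δ p) + x.1 v (x.2.1 γ p) - x.1 p (x.2.1 (γ⁻¹ * δ) p) = x.1 u v
  have h2 : x.1 p (x.2.1 (γ⁻¹ * δ) p) = x.1 (x.2.1 γ p) (x.2.1 δ p) := by
    rw [d_act hx, hx.mul]
  have h3 := hx.four u v (x.2.1 γ p) (x.2.1 δ p)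
  have h4 := hx.four u (x.2.1 δ p) (x.2.1 γ p) v
  have e1 := hx.symm (x.2.1 γ p) v
  have e2 := hx.symm (x.2.1 δ p) v
  have e3 := hx.symm (x.2.1 δ p) (x.2.1 γ p)
  rw [max_eq_right h1.le] at h3
  have h5 : x.1 u (x.2.1 γ p) + x.1 (x.2.1 δ p) v < x.1 u (x.2.1 δ p) + x.1 (x.2.1 γ p) v := by
    rw [e1, e2]
    exact h1
  have h6 : x.1 u (x.2.1 δ p) + x.1 (x.2.1 γ p) v ≤ x.1 u v + x.1 (x.2.1 δ p) (x.2.1 γ p) := by
    rcases le_max_iff.1 h4 with h7 | h7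
    · exact absurd h7 (not_le.2 h5)
    · exact h7
  linarith

/-- decoding -/
theorem cod_dec : IsoM θ (DH e r y) x ∧ CodH e r (DH e r y) (θ.symm p) (fH e y) y := by
  have hcs : ∀ a b, cst (e (ixh y a)).1 (e (ixh y b)).1 ↔ eqh x p (θ a) (θ b) := by
    intro a b
    rw [e_ixh hx hc hθ hcov, e_ixh hx hc hθ hcov]
    exact Iff.rfl
  have hfy : fH e y = fun s => f (θ s.1, θ s.2) := by
    funext s
    unfold fH
    by_cases h : eqh x p (θ s.1) (θ s.2)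
    · rw [if_pos ((hcs _ _).2 h)]
      refine nth_one _ _ fun K => ?_
      rw [hθ, hθ]
      exact ndh_iff hx hc h K
    · rw [if_neg (fun h1 => h ((hcs _ _).1 h1)), hθ, hc.eq, UH_neg h]
  have hiso : IsoM θ (DH e r y) x := by
    refine ⟨fun a b => ?_, fun γ m => ?_, fun i m => ?_⟩
    · show x.1 (θ a) (θ b) = Gh e r (ixh y a) (ixh y b) (jxh y a b)
      unfold Gh
      by_cases h : eqh x p (θ a) (θ b)
      · rw [if_pos ((hcs _ _).2 h), r_jxh hx hc hθ hcov h, e_ixh hx hc hθ hcov,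
          e_ixh hx hc hθ hcov]
        show x.1 (θ a) (θ b) = x.1 (θ a) (x.2.1 1 p) + x.1 (θ b) (x.2.1 1 p) - gp x p (θ a) (θ b)
        rw [hx.one]
        unfold gp
        ring
      · rw [if_neg (fun h1 => h ((hcs _ _).1 h1)), e_ixh hx hc hθ hcov, e_ixh hx hc hθ hcov,
          dd_eq hx h]
    · have h1 : ∀ k, enh y k = y.2.1 γ (enh y m) ↔ k = θ.symm (x.2.1 γ (θ m)) := by
        intro k
        rw [Equiv.eq_symm_apply, hθ, hθ, hc.act]
        exact (finj hx hc).eq_iff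
      have h2 : (DH e r y).2.1 γ m = θ.symm (x.2.1 γ (θ m)) := nth_one _ _ h1
      rw [h2, θ.apply_symm_apply]
    · show x.2.2 i (θ m) = y.2.2 (3 * i + 3) (enh y m)
      rw [Bool.eq_iff_iff, hθ, pr_un hx hc]
  refine ⟨hiso, ?_⟩
  rw [hfy]
  exact cod_pull hc hiso

end dec

/-- the coding part -/
theorem t_HYB : S_HYB := by
  intro Γ _ e r
  refine ⟨fun x p h => cod_ex h, fun x p f y h hc => cod_semi h hc,
    fun x p f y h hcov hc => ?_, fun x p f y f' y' h h' => cod_uni h h',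
    fun x p f y y' σ h hσ => cod_trans h hσ, fun x x' p f y θ h hθ => cod_pull h hθ⟩
  obtain ⟨θ, hθ⟩ := leaves h hc
  exact ⟨θ, cod_dec h hc hθ hcov⟩

end Pool.Agent.Y564.TH
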